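import Pool.Agent.H5.TT.Stm

/-! Assembly (MP_9cf0c9_mp). -/

set_option autoImplicit false

open MeasureTheory

namespace H5.TT

/-- **Main inequalities.** -/
theorem main_of (hG : S_GCX) (hM : S_MON) (hB : S_BDD) (hI : S_INF) (hC : S_CAL) (hD : S_CAM)
    (k : ℕ) (z : Fin k → ℝ) (R : Fin k → R3) (hz : ∀ j, 0 ≤ z j) (lam : ℝ) (hlam : 0 ≤ lam) :
    (∀ l : ℝ, 0 < l → DifferentiableAt ℝ (en z R lam) l →
      en z R lam l ≤ 3 * l ^ 3 * pres z R lam l) ∧
    (∀ l : ℝ, 0 < l → (∀ᶠ x in nhds l, DifferentiableAt ℝ (en z R lam) x) →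
      DifferentiableAt ℝ (deriv (en z R lam)) l →
      en z R lam l + 21 * l ^ 3 * pres z R lam l ≤ 18 * l ^ 3 * kapInv z R lam l) := by
  constructor
  · intro l hl hd
    have h := hD (en z R lam) l hl (hM k z R hz lam hlam) hd
    have hl2 : l ≠ 0 := hl.ne'
    have e : 3 * l ^ 3 * pres z R lam l = -(l * deriv (en z R lam) l) := by
      unfold pres
      field_simp
    rw [e]
    linarith
  · intro l hl hd hdd
    have h := hC (en z R lam) l hl (hG k z R hz lam hlam) hd hdd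
    have hl2 : l ≠ 0 := hl.ne'
    have e1 : 21 * l ^ 3 * pres z R lam l = -(7 * l * deriv (en z R lam) l) := by
      unfold pres
      field_simp
      ring
    -- derivative of the pressure
    have hP : HasDerivAt (fun l => pres z R lam l)
        (2 / (3 * l ^ 3) * deriv (en z R lam) l
          + -(1 / (3 * l ^ 2)) * deriv (deriv (en z R lam)) l) l := by
      have h1 : HasDerivAt (fun l : ℝ => -(1 / (3 * l ^ 2))) (2 / (3 * l ^ 3)) l := by
        have h2 : HasDerivAt (fun l : ℝ => 3 * l ^ 2) (3 * (2 * l)) l := by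
          simpa using (hasDerivAt_pow 2 l).const_mul 3
        have h3 := (h2.inv (by positivity)).neg
        have e : (fun l : ℝ => -(1 / (3 * l ^ 2))) = fun l : ℝ => -(3 * l ^ 2)⁻¹ := by
          funext x
          rw [one_div]
        rw [e]
        refine h3.congr_deriv ?_
        field_simp
      exact h1.mul hdd.hasDerivAt
    have e2 : 18 * l ^ 3 * kapInv z R lam l
        = 2 * (l ^ 2 * deriv (deriv (en z R lam)) l - 2 * l * deriv (en z R lam) l) := by
      unfold kapInv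
      rw [hP.deriv]
      field_simp
      ring
    rw [e1, e2]
    linarith

/-- The set of energies is nonempty and bounded below. -/
theorem set_ok (hB : S_BDD) (hI : S_INF) (k : ℕ) (z : Fin k → ℝ) (R : Fin k → R3)
    (hz : ∀ j, 0 ≤ z j) (lam : ℝ) (hlam : 0 ≤ lam) (l : ℝ) (hl : 0 < l) :
    {x | ∃ ϱ, Adm lam ϱ ∧ x = tf z R l ϱ}.Nonempty ∧
    BddBelow {x | ∃ ϱ, Adm lam ϱ ∧ x = tf z R l ϱ} := by
  obtain ⟨x, σ, hσ, -⟩ := (hI k z R hz lam l hlam hl).1
  obtain ⟨C, hC⟩ := hB k z R hz lam hlam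
  refine ⟨⟨_, σ, hσ, rfl⟩, ⟨rep z R / l - C, ?_⟩⟩
  rintro y ⟨ϱ, hϱ, rfl⟩
  exact hC l hl ϱ hϱ

/-- For small dilations the energy is positive. -/
theorem small_l (hB : S_BDD) (hI : S_INF) (k : ℕ) (z : Fin k → ℝ) (R : Fin k → R3)
    (hz : ∀ j, 0 ≤ z j) (hR : Function.Injective R) (lam : ℝ) (hlam : 0 ≤ lam)
    (hpos : ∃ i j, i ≠ j ∧ 0 < z i ∧ 0 < z j) :
    ∃ l₀ : ℝ, 0 < l₀ ∧ ∀ l : ℝ, 0 < l → l < l₀ → 0 < en z R lam l := by
  obtain ⟨C, hC⟩ := hB k z R hz lam hlam
  have hnn : ∀ i j : Fin k, 0 ≤ z i * z j / ‖R i - R j‖ := fun i j =>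
    div_nonneg (mul_nonneg (hz i) (hz j)) (norm_nonneg _)
  have key : ∀ i j : Fin k, i < j → 0 < z i → 0 < z j → 0 < rep z R := by
    intro i j hij hi hj
    unfold rep
    refine Finset.sum_pos' (fun i _ => Finset.sum_nonneg fun j _ => hnn i j) ⟨i, Finset.mem_univ _, ?_⟩
    refine Finset.sum_pos' (fun j _ => hnn i j) ⟨j, by simp [hij], ?_⟩
    have : 0 < ‖R i - R j‖ := norm_pos_iff.2 (sub_ne_zero.2 (fun h => hij.ne (hR h)))
    positivity
  have hrep : 0 < rep z R := by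
    obtain ⟨i, j, hij, hi, hj⟩ := hpos
    rcases lt_or_gt_of_ne hij with h | h
    · exact key i j h hi hj
    · exact key j i h hj hi
  refine ⟨rep z R / (|C| + 1), by positivity, fun l hl hl0 => ?_⟩
  have h1 : |C| + 1 < rep z R / l := by
    rw [lt_div_iff₀ (by positivity)] at hl0
    rw [lt_div_iff₀ hl]
    linarith
  have h2 : rep z R / l - C ≤ en z R lam l := by
    refine le_csInf (set_ok hB hI k z R hz lam hlam l hl).1 ?_
    rintro y ⟨ϱ, hϱ, rfl⟩
    exact hC l hl ϱ hϱ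
  have := le_abs_self C
  linarith

end H5.TT
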