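import Mathlib

/-!
# Ionic Thomas–Fermi molecules (MP_9cf0c9_mp): definitions and parts (crew TT)

`E l = e(λ, l)`.  The substitution `ϱ(x) = l⁻³ σ(x/l)` gives `l E(l) = inf_σ (K(σ)/l + W(σ))` with
`W` convex (Coulomb energy) and `K(σ) = 3/5 ∫ σ^(5/3)`.  As `(r, σ) ↦ r^(-2/3) σ^(5/3)` is the
perspective of a convex function, `l E(l)` is a convex function of `r = l^(3/2)`.
-/

set_option autoImplicit false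

open MeasureTheory

namespace H5.TT

/-- `ℝ³` -/
abbrev R3 : Type := EuclideanSpace ℝ (Fin 3)

/-- admissible densities with `∫ ϱ = lam` -/
def Adm (lam : ℝ) (ϱ : R3 → ℝ) : Prop :=
  Measurable ϱ ∧ (∀ x, 0 ≤ ϱ x) ∧ Integrable ϱ ∧ Integrable (fun x => ϱ x ^ (5 / 3 : ℝ)) ∧
    ∫ x, ϱ x = lam

/-- kinetic energy `3/5 ∫ ϱ^(5/3)` -/
noncomputable def kin (ϱ : R3 → ℝ) : ℝ := 3 / 5 * ∫ x, ϱ x ^ (5 / 3 : ℝ)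

/-- `∬ ϱ(x) τ(y)/|x-y|` -/
noncomputable def dd (ϱ τ : R3 → ℝ) : ℝ := ∫ p : R3 × R3, ϱ p.1 * τ p.2 / ‖p.1 - p.2‖

variable {k : ℕ}

/-- attraction `∑_j z_j ∫ ϱ(x)/|x - l R_j|` -/
noncomputable def att (z : Fin k → ℝ) (R : Fin k → R3) (l : ℝ) (ϱ : R3 → ℝ) : ℝ :=
  ∑ j, z j * ∫ x, ϱ x / ‖x - l • R j‖

/-- nuclear repulsion `∑_{i<j} z_i z_j/|R_i - R_j|` -/
noncomputable def rep (z : Fin k → ℝ) (R : Fin k → R3) : ℝ :=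
  ∑ i, ∑ j ∈ Finset.univ.filter (fun j => i < j), z i * z j / ‖R i - R j‖

/-- the Thomas–Fermi functional for the nuclei at `l R_j` -/
noncomputable def tf (z : Fin k → ℝ) (R : Fin k → R3) (l : ℝ) (ϱ : R3 → ℝ) : ℝ :=
  kin ϱ - att z R l ϱ + 1 / 2 * dd ϱ ϱ + rep z (fun j => l • R j)

/-- the energy `e(lam, l)` -/
noncomputable def en (z : Fin k → ℝ) (R : Fin k → R3) (lam l : ℝ) : ℝ :=
  sInf {x | ∃ ϱ, Adm lam ϱ ∧ x = tf z R l ϱ}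

/-- pressure `P = -(1/(3 l²)) ∂e/∂l` -/
noncomputable def pres (z : Fin k → ℝ) (R : Fin k → R3) (lam l : ℝ) : ℝ :=
  -(1 / (3 * l ^ 2)) * deriv (fun l => en z R lam l) l

/-- reciprocal compressibility `κ⁻¹ = -(l/3) ∂P/∂l` -/
noncomputable def kapInv (z : Fin k → ℝ) (R : Fin k → R3) (lam l : ℝ) : ℝ :=
  -(l / 3) * deriv (fun l => pres z R lam l) l

/-! ### Parts -/

/-- (M) There is `C` with: for `ϱ` admissible, `a`, `ε > 0`: `ϱ/|x-a|` is integrable and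
`∫ ϱ/|x-a| ≤ (3/5) ε ∫ ϱ^(5/3) + C ε^(-3/2) + ∫ ϱ`.  Young:
`ϱ/|x-a| ≤ (3/5) ε ϱ^(5/3) + (2/5) ε^(-3/2) |x-a|^(-5/2)` for `|x-a| < 1` (`|x|^(-5/2)` is integrable on
the unit ball of `ℝ³`), `ϱ/|x-a| ≤ ϱ` otherwise. -/
def S_YNG : Prop := ∃ C : ℝ, 0 ≤ C ∧ ∀ (lam : ℝ) (ϱ : R3 → ℝ), Adm lam ϱ → ∀ (a : R3) (ε : ℝ),
  0 < ε → Integrable (fun x => ϱ x / ‖x - a‖) ∧
    ∫ x, ϱ x / ‖x - a‖ ≤
      3 / 5 * ε * (∫ x, ϱ x ^ (5 / 3 : ℝ)) + C * ε ^ (-(3 / 2) : ℝ) + ∫ x, ϱ x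

/-- (S) dep S_YNG (inner integral bounded uniformly; Tonelli). -/
def S_DFI : Prop := ∀ (lam mu : ℝ) (ϱ τ : R3 → ℝ), Adm lam ϱ → Adm mu τ →
  Integrable (fun p : R3 × R3 => ϱ p.1 * τ p.2 / ‖p.1 - p.2‖)

/-- (M/L) Positivity of the Coulomb energy.  deps S_DFI.
`1/|x| = π^(-1/2) ∫_0^∞ t^(-1/2) e^{-t|x|²} dt`,
`e^{-t|x-y|²} = (4t/π)^(3/2) ∫ e^{-2t|x-w|²} e^{-2t|y-w|²} dw`; with `f = σ - τ`,
`D(f,f) = ∫_0^∞ ∫ (π^(-1/2) t^(-1/2) (4t/π)^(3/2)) (∫ f(x) e^{-2t|x-w|²} dx)² dw dt ≥ 0` (Fubini: everything is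
dominated by the same integral with `σ + τ` instead of `f`, which is finite by S_DFI). -/
def S_COU : Prop := ∀ (lam mu : ℝ) (σ τ : R3 → ℝ), Adm lam σ → Adm mu τ →
  2 * dd σ τ ≤ dd σ σ + dd τ τ

/-- (S/M) lower bound.  dep S_YNG.  `ε = 1/(1+∑z)`, `dd ϱ ϱ ≥ 0`, `rep z (l R) = rep z R / l`. -/
def S_BDD : Prop := ∀ (k : ℕ) (z : Fin k → ℝ) (R : Fin k → R3), (∀ j, 0 ≤ z j) → ∀ lam : ℝ,
  0 ≤ lam → ∃ C : ℝ, ∀ l : ℝ, 0 < l → ∀ ϱ, Adm lam ϱ → rep z R / l - C ≤ tf z R l ϱ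

/-- (M) scaling.  For `ϱ x = l⁻³ σ(l⁻¹ x)`: admissible with the same `lam`, and
`tf z R l ϱ = l⁻² kin σ + l⁻¹ (- att z R 1 σ + ½ dd σ σ + rep z R)`.  (No integrability is needed:
`integral_comp_smul`-type change of variables, on `R3 × R3` for `dd`.) -/
def S_SCA : Prop := ∀ (k : ℕ) (z : Fin k → ℝ) (R : Fin k → R3) (lam l : ℝ), 0 < l →
  ∀ σ : R3 → ℝ, Adm lam σ →
    Adm lam (fun x => (l ^ 3)⁻¹ * σ (l⁻¹ • x)) ∧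
    tf z R l (fun x => (l ^ 3)⁻¹ * σ (l⁻¹ • x))
      = (l ^ 2)⁻¹ * kin σ + l⁻¹ * (- att z R 1 σ + 1 / 2 * dd σ σ + rep z R)

/-- (S) consequence of S_SCA, S_BDD: `l e(l) = inf_σ (kin σ/l + W σ)`; the set is nonempty and
bounded below. -/
def S_INF : Prop := ∀ (k : ℕ) (z : Fin k → ℝ) (R : Fin k → R3), (∀ j, 0 ≤ z j) → ∀ lam l : ℝ,
  0 ≤ lam → 0 < l →
  {x | ∃ σ, Adm lam σ ∧ x = l⁻¹ * kin σ + (- att z R 1 σ + 1 / 2 * dd σ σ + rep z R)}.Nonempty ∧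
  BddBelow {x | ∃ σ, Adm lam σ ∧ x = l⁻¹ * kin σ + (- att z R 1 σ + 1 / 2 * dd σ σ + rep z R)} ∧
  l * en z R lam l
    = sInf {x | ∃ σ, Adm lam σ ∧ x = l⁻¹ * kin σ + (- att z R 1 σ + 1 / 2 * dd σ σ + rep z R)}

/-- (S) the perspective of `t^(5/3)`: `r^(-2/3) a^(5/3) = r (a/r)^(5/3)` is jointly convex. -/
def S_PER : Prop := ∀ a b r s t : ℝ, 0 ≤ a → 0 ≤ b → 0 < r → 0 < s → 0 ≤ t → t ≤ 1 →
  ((1 - t) * r + t * s) ^ (-(2 / 3) : ℝ) * ((1 - t) * a + t * b) ^ (5 / 3 : ℝ)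
    ≤ (1 - t) * (r ^ (-(2 / 3) : ℝ) * a ^ (5 / 3 : ℝ)) + t * (s ^ (-(2 / 3) : ℝ) * b ^ (5 / 3 : ℝ))

/-- (M) `r ↦ r^(2/3) e(r^(2/3))` is convex on `(0,∞)`.  deps S_INF, S_PER, S_COU, S_YNG, S_DFI.
For `σ`, `τ` nearly optimal at `r`, `s` use `(1-t) σ + t τ`: `kin` by S_PER (with `l⁻¹ = r^(-2/3)`),
`att` is linear, `dd` is convex by S_COU (bilinear by S_DFI). -/
def S_GCX : Prop := ∀ (k : ℕ) (z : Fin k → ℝ) (R : Fin k → R3), (∀ j, 0 ≤ z j) → ∀ lam : ℝ,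
  0 ≤ lam → ConvexOn ℝ (Set.Ioi 0) (fun r : ℝ => r ^ (2 / 3 : ℝ) * en z R lam (r ^ (2 / 3 : ℝ)))

/-- (S) `s ↦ e(1/s)/s` is nondecreasing on `(0,∞)`.  dep S_INF: it is `inf_σ (s kin σ + W σ)` and
`kin σ ≥ 0`. -/
def S_MON : Prop := ∀ (k : ℕ) (z : Fin k → ℝ) (R : Fin k → R3), (∀ j, 0 ≤ z j) → ∀ lam : ℝ,
  0 ≤ lam → MonotoneOn (fun s : ℝ => s⁻¹ * en z R lam s⁻¹) (Set.Ioi 0)

/-- (S) calculus, abstract.  Let `E : ℝ → ℝ` be such that `r ↦ r^(2/3) E(r^(2/3))` is convex on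
`(0,∞)`, differentiable in a neighbourhood of `l > 0`, with `E'` differentiable at `l`.  Then
`7 l E'(l) - ... `: with `G(r) = r^(2/3) E(r^(2/3))`, `r = l^(3/2)`,
`G' = (2/3) r^(-1/3) (E + l E')`,
`0 ≤ G''(r) r^(4/3) = (4/9) l² E'' + (2/3) l E' ... `.  (Compute: `d/dr = (2/3) l^(-1/2) d/dl`, so
`G' = (2/3) l^(-1/2) (E + l E')` and
`G'' = (4/9) l^(-1/2) (d/dl)(l^(-1/2) (E + l E'))
     = (4/9) l^(-1) (2 E' + l E'' - (E + l E')/(2l))`.)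
So `G'' ≥ 0` says `l² E'' + (3/2) l E' - E/2 ≥ 0`. -/
def S_CAL : Prop := ∀ (E : ℝ → ℝ) (l : ℝ), 0 < l →
  ConvexOn ℝ (Set.Ioi 0) (fun r : ℝ => r ^ (2 / 3 : ℝ) * E (r ^ (2 / 3 : ℝ))) →
  (∀ᶠ x in nhds l, DifferentiableAt ℝ E x) → DifferentiableAt ℝ (deriv E) l →
  0 ≤ l ^ 2 * deriv (deriv E) l + 3 / 2 * l * deriv E l - 1 / 2 * E l

/-- (S) calculus, abstract: if `s ↦ s⁻¹ E(s⁻¹)` is nondecreasing on `(0,∞)` and `E` is differentiable at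
`l > 0` then `E(l) + l E'(l) ≤ 0`  (`d/ds (l E(l)) = -l² d/dl(l E)`). -/
def S_CAM : Prop := ∀ (E : ℝ → ℝ) (l : ℝ), 0 < l →
  MonotoneOn (fun s : ℝ => s⁻¹ * E s⁻¹) (Set.Ioi 0) → DifferentiableAt ℝ E l →
  E l + l * deriv E l ≤ 0

end H5.TT
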