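import Pool.Agent.H5.TT.Stm

set_option autoImplicit false

open MeasureTheory

namespace H1.TT
open H5.TT

/-- the radial weight -/
noncomputable def wf (t : ℝ) : ℝ := (Set.Iio (1 : ℝ)).indicator (fun t => t ^ (-(5 / 2) : ℝ)) t

lemma wf_nonneg (x : R3) : 0 ≤ wf ‖x‖ := by
  unfold wf
  apply Set.indicator_apply_nonneg
  intro _
  exact Real.rpow_nonneg (norm_nonneg _) _

lemma wf_meas : Measurable wf :=
  Measurable.indicator (f := fun t : ℝ => t ^ (-(5 / 2) : ℝ)) (by fun_prop) measurableSet_Iio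

lemma wf_int : Integrable (fun x : R3 => wf ‖x‖) := by
  rw [integrable_fun_norm_addHaar (volume : Measure R3) (f := wf)]
  have hd : Module.finrank ℝ R3 - 1 = 2 := by simp
  rw [hd]
  have h1 : IntegrableOn (fun y : ℝ => y ^ (-(1 / 2) : ℝ)) (Set.Ioc 0 1) := by
    have := (intervalIntegral.intervalIntegrable_rpow' (a := 0) (b := 1)
      (r := (-(1 / 2) : ℝ)) (by norm_num))
    rwa [intervalIntegrable_iff_integrableOn_Ioc_of_le (by norm_num)] at this
  have h2 : IntegrableOn (fun y : ℝ => y ^ 2 • wf y) (Set.Ioc 0 1 ∪ Set.Ioi 1) := by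
    apply IntegrableOn.union
    · refine Integrable.mono' h1 ?_ ?_
      · apply Measurable.aestronglyMeasurable
        simp only [smul_eq_mul]
        exact (measurable_id.pow_const 2).mul wf_meas
      · filter_upwards [ae_restrict_mem measurableSet_Ioc] with y hy
        unfold wf
        by_cases hy1 : y < 1
        · rw [Set.indicator_of_mem (show y ∈ Set.Iio (1 : ℝ) from hy1), smul_eq_mul,
            Real.norm_eq_abs, abs_of_nonneg
              (mul_nonneg (sq_nonneg _) (Real.rpow_nonneg hy.1.le _)), ← Real.rpow_natCast,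
            ← Real.rpow_add hy.1]
          norm_num
        · rw [Set.indicator_of_notMem (show y ∉ Set.Iio (1 : ℝ) from hy1)]
          simpa using Real.rpow_nonneg hy.1.le _
    · apply IntegrableOn.congr_fun (f := fun _ => (0 : ℝ)) _ _ measurableSet_Ioi
      · exact integrableOn_zero
      · intro y hy
        have : y ∉ Set.Iio (1 : ℝ) := by
          simp only [Set.mem_Iio, not_lt]; exact (Set.mem_Ioi.mp hy).le
        simp [wf, this]
  rwa [Set.Ioc_union_Ioi_eq_Ioi (by norm_num)] at h2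

lemma young_pt (s t ε : ℝ) (hs : 0 ≤ s) (ht : 0 ≤ t) (hε : 0 < ε) :
    s / t ≤ 3 / 5 * ε * s ^ (5 / 3 : ℝ) + 2 / 5 * ε ^ (-(3 / 2) : ℝ) * wf t + s := by
  have hA : 0 ≤ 3 / 5 * ε * s ^ (5 / 3 : ℝ) := by positivity
  by_cases h1 : t < 1
  · have hw : wf t = t ^ (-(5 / 2) : ℝ) := by
      unfold wf; rw [Set.indicator_of_mem (show t ∈ Set.Iio (1 : ℝ) from h1)]
    rw [hw]
    rcases ht.eq_or_lt with h0 | h0
    · rw [← h0, div_zero]
      have : 0 ≤ 2 / 5 * ε ^ (-(3 / 2) : ℝ) * (0 : ℝ) ^ (-(5 / 2) : ℝ) := by positivity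
      linarith
    · have hpq : (5 / 3 : ℝ).HolderConjugate (5 / 2) :=
        Real.holderConjugate_iff.mpr ⟨by norm_num, by norm_num⟩
      have hy := Real.young_inequality_of_nonneg
        (a := ε ^ (3 / 5 : ℝ) * s) (b := ε ^ (-(3 / 5) : ℝ) * t⁻¹) (by positivity) (by positivity)
        hpq
      have e1 : ε ^ (3 / 5 : ℝ) * s * (ε ^ (-(3 / 5) : ℝ) * t⁻¹) = s / t := by
        have : ε ^ (3 / 5 : ℝ) * ε ^ (-(3 / 5) : ℝ) = 1 := by
          rw [← Real.rpow_add hε]; norm_num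
        calc _ = (ε ^ (3 / 5 : ℝ) * ε ^ (-(3 / 5) : ℝ)) * (s * t⁻¹) := by ring
          _ = s / t := by rw [this, one_mul, div_eq_mul_inv]
      have e2 : (ε ^ (3 / 5 : ℝ) * s) ^ (5 / 3 : ℝ) = ε * s ^ (5 / 3 : ℝ) := by
        rw [Real.mul_rpow (by positivity) hs, ← Real.rpow_mul hε.le]
        norm_num
      have e3 : (ε ^ (-(3 / 5) : ℝ) * t⁻¹) ^ (5 / 2 : ℝ) =
          ε ^ (-(3 / 2) : ℝ) * t ^ (-(5 / 2) : ℝ) := by
        rw [Real.mul_rpow (by positivity) (by positivity), ← Real.rpow_mul hε.le,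
          Real.inv_rpow h0.le, ← Real.rpow_neg h0.le]
        norm_num
      rw [e1, e2, e3] at hy
      have e4 : ε * s ^ (5 / 3 : ℝ) / (5 / 3) = 3 / 5 * ε * s ^ (5 / 3 : ℝ) := by ring
      have e5 : ε ^ (-(3 / 2) : ℝ) * t ^ (-(5 / 2) : ℝ) / (5 / 2) =
          2 / 5 * ε ^ (-(3 / 2) : ℝ) * t ^ (-(5 / 2) : ℝ) := by ring
      rw [e4, e5] at hy
      linarith
  · have hw : wf t = 0 := by
      unfold wf; rw [Set.indicator_of_notMem (show t ∉ Set.Iio (1 : ℝ) from h1)]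
    rw [hw, mul_zero, add_zero]
    have : s / t ≤ s := div_le_self hs (not_lt.mp h1)
    linarith

/-- Corrected form of `S_YNG` (in `S_YNG` the constants are parsed inside the integral, so `S_YNG` is
false): parentheses around the integrals. -/
def S_YNG' : Prop := ∃ C : ℝ, 0 ≤ C ∧ ∀ (lam : ℝ) (ϱ : R3 → ℝ), Adm lam ϱ → ∀ (a : R3) (ε : ℝ),
  0 < ε → Integrable (fun x => ϱ x / ‖x - a‖) ∧
    (∫ x, ϱ x / ‖x - a‖) ≤
      3 / 5 * ε * (∫ x, ϱ x ^ (5 / 3 : ℝ)) + C * ε ^ (-(3 / 2) : ℝ) + (∫ x, ϱ x)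

theorem t_YNG' : S_YNG' := by
  refine ⟨2 / 5 * ∫ x : R3, wf ‖x‖, mul_nonneg (by norm_num) (integral_nonneg wf_nonneg), ?_⟩
  intro lam ϱ h a ε hε
  obtain ⟨hm, hn, hi, hk, -⟩ := h
  have hw : Integrable (fun x : R3 => wf ‖x - a‖) := wf_int.comp_sub_right a
  have hG : Integrable (fun x : R3 => 3 / 5 * ε * ϱ x ^ (5 / 3 : ℝ) +
      2 / 5 * ε ^ (-(3 / 2) : ℝ) * wf ‖x - a‖ + ϱ x) :=
    ((hk.const_mul _).add (hw.const_mul _)).add hi
  have hle : ∀ x : R3, ϱ x / ‖x - a‖ ≤ 3 / 5 * ε * ϱ x ^ (5 / 3 : ℝ) +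
      2 / 5 * ε ^ (-(3 / 2) : ℝ) * wf ‖x - a‖ + ϱ x := fun x =>
    young_pt _ _ _ (hn x) (norm_nonneg _) hε
  have hint : Integrable (fun x => ϱ x / ‖x - a‖) := by
    refine hG.mono' ?_ (Filter.Eventually.of_forall fun x => ?_)
    · apply Measurable.aestronglyMeasurable
      exact hm.div (by fun_prop)
    · rw [Real.norm_eq_abs, abs_of_nonneg (div_nonneg (hn x) (norm_nonneg _))]
      exact hle x
  refine ⟨hint, ?_⟩
  calc ∫ x, ϱ x / ‖x - a‖ ≤ ∫ x, (3 / 5 * ε * ϱ x ^ (5 / 3 : ℝ) +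
      2 / 5 * ε ^ (-(3 / 2) : ℝ) * wf ‖x - a‖ + ϱ x) := integral_mono hint hG hle
    _ = _ := by
      have i1 : Integrable (fun x : R3 => 3 / 5 * ε * ϱ x ^ (5 / 3 : ℝ)) := hk.const_mul _
      have i2 : Integrable (fun x : R3 => 2 / 5 * ε ^ (-(3 / 2) : ℝ) * wf ‖x - a‖) :=
        hw.const_mul _
      have i12 : Integrable (fun x : R3 => 3 / 5 * ε * ϱ x ^ (5 / 3 : ℝ) +
        2 / 5 * ε ^ (-(3 / 2) : ℝ) * wf ‖x - a‖) := i1.add i2
      rw [integral_add i12 hi, integral_add i1 i2, integral_const_mul, integral_const_mul,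
        integral_sub_right_eq_self (fun x : R3 => wf ‖x‖) a]
      ring

end H1.TT
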